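import Pool.Agent.W223.HZ.Stms

/-! Task HZ-REL: all maximal minors vanish, hence a small relation. -/

namespace Pool.Agent.W563.HZ.REL

open Pool.Agent.W223.HZ Matrix

attribute [local instance] Matrix.seminormedAddCommGroup

theorem t : StmtREL := by
  classical
  intro ι κ _ _ A H hH hι hA hdet
  -- `κ` is not empty
  have hκ : 0 < Fintype.card κ := by
    rcases Nat.eq_zero_or_pos (Fintype.card κ) with h | h
    · exfalso
      have he : IsEmpty κ := Fintype.card_eq_zero_iff.1 h
      have h1 := hdet (fun x => (he.false x).elim)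
      rw [Matrix.det_isEmpty] at h1
      exact one_ne_zero h1
    · exact h
  have hn1 : (1 : ℝ) ≤ Fintype.card κ := by exact_mod_cast hκ
  have hnH : (1 : ℝ) ≤ (Fintype.card κ : ℝ) * H := by nlinarith
  -- the rows over `ℚ`
  set R : ι → κ → ℚ := fun i j => (A i j : ℚ) with hR
  obtain ⟨b, hb, hspan, hli⟩ := exists_linearIndependent ℚ (Set.range R)
  have hfin : b.Finite := hli.setFinite
  have : Fintype b := hfin.fintype
  have hch : ∀ x : b, ∃ i : ι, R i = x := fun x => hb x.2
  choose s hs using hch
  have hcard : Fintype.card b ≤ Fintype.card κ := by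
    have := hli.fintype_card_le_finrank
    rwa [Module.finrank_fintype_fun_eq_card] at this
  -- a relation for the chosen rows is a relation for all the rows
  have hall : ∀ v : κ → ℤ, (∀ x : b, ∑ j, A (s x) j * v j = 0) → ∀ i, ∑ j, A i j * v j = 0 := by
    intro v hv i
    let Lf : (κ → ℚ) →ₗ[ℚ] ℚ := ∑ j, (v j : ℚ) • LinearMap.proj j
    have hLf : ∀ y : κ → ℚ, Lf y = ∑ j, y j * v j := by
      intro y
      simp only [Lf, LinearMap.sum_apply, LinearMap.smul_apply, LinearMap.proj_apply, smul_eq_mul]
      exact Finset.sum_congr rfl fun j _ => mul_comm _ _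
    have h1 : Submodule.span ℚ b ≤ LinearMap.ker Lf := by
      rw [Submodule.span_le]
      intro y hy
      rw [SetLike.mem_coe, LinearMap.mem_ker, hLf]
      have h2 := hv ⟨y, hy⟩
      have h3 := hs ⟨y, hy⟩
      have h4 : ∀ j, y j = (A (s ⟨y, hy⟩) j : ℚ) := fun j => (congrFun h3 j).symm
      simp only [h4]
      exact_mod_cast h2
    have h5 : R i ∈ LinearMap.ker Lf := by
      refine h1 ?_
      rw [hspan]
      exact Submodule.subset_span ⟨i, rfl⟩
    rw [LinearMap.mem_ker, hLf] at h5
    have h6 : ∑ j, ((A i j : ℤ) : ℚ) * (v j : ℚ) = 0 := h5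
    exact_mod_cast h6
  rcases hcard.lt_or_eq with hlt | heq
  · rcases Nat.eq_zero_or_pos (Fintype.card b) with h0 | h0
    · -- no rows
      have he : IsEmpty b := Fintype.card_eq_zero_iff.1 h0
      obtain ⟨j0⟩ : Nonempty κ := Fintype.card_pos_iff.1 hκ
      refine ⟨Pi.single j0 1, ?_, hall _ (fun x => (he.false x).elim), ?_⟩
      · intro h
        have := congrFun h j0
        rw [Pi.single_eq_same] at this
        exact one_ne_zero this
      · intro j
        have h1 : |((Pi.single j0 (1 : ℤ) : κ → ℤ) j : ℝ)| ≤ 1 := by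
          by_cases h : j = j0
          · subst h; simp
          · rw [Pi.single_eq_of_ne h]; simp
        exact h1.trans (one_le_pow₀ hnH)
    · set A' : Matrix b κ ℤ := Matrix.of fun x j => A (s x) j with hA'
      obtain ⟨v, hv0, hv1, hv2⟩ := Int.Matrix.exists_ne_zero_int_vec_norm_le A' hlt h0
      have hnorm : ‖A'‖ ≤ H := by
        rw [Matrix.norm_le_iff (by linarith)]
        intro x j
        rw [Int.norm_eq_abs]
        exact hA (s x) j
      refine ⟨v, hv0, hall v ?_, ?_⟩
      · intro x
        exact congrFun hv1 x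
      · intro j
        have h1 : |(v j : ℝ)| ≤ ‖v‖ := by
          rw [← Int.norm_eq_abs]
          exact norm_le_pi_norm v j
        have hmax : max 1 ‖A'‖ ≤ H := max_le hH hnorm
        have hr : (Fintype.card b : ℝ) + 1 ≤ Fintype.card κ := by exact_mod_cast hlt
        have hexp : (Fintype.card b : ℝ) / ((Fintype.card κ : ℝ) - Fintype.card b) ≤
            (Fintype.card κ : ℝ) := by
          rw [div_le_iff₀ (by linarith)]
          have : (0 : ℝ) ≤ Fintype.card b := Nat.cast_nonneg _
          nlinarith
        calc |(v j : ℝ)| ≤ ‖v‖ := h1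
          _ ≤ _ := hv2
          _ ≤ ((Fintype.card κ : ℝ) * H) ^
              ((Fintype.card b : ℝ) / ((Fintype.card κ : ℝ) - Fintype.card b)) := by
              refine Real.rpow_le_rpow (by positivity) ?_ ?_
              · gcongr
              · exact div_nonneg (Nat.cast_nonneg _) (by linarith)
          _ ≤ ((Fintype.card κ : ℝ) * H) ^ (Fintype.card κ : ℝ) :=
              Real.rpow_le_rpow_of_exponent_le hnH hexp
          _ = _ := Real.rpow_natCast _ _
  · exfalso
    have e : κ ≃ b := (Fintype.equivOfCardEq heq).symm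
    have h1 := hdet (fun i => s (e i))
    have h2 : LinearIndependent ℚ (fun i : κ => ((e i : b) : κ → ℚ)) := hli.comp e e.injective
    set N : Matrix κ κ ℚ := Matrix.of fun i j => (A (s (e i)) j : ℚ) with hN
    have h3 : LinearIndependent ℚ N.row := by
      convert h2 using 1
      funext i
      exact hs (e i)
    rw [Matrix.linearIndependent_rows_iff_isUnit, Matrix.isUnit_iff_isUnit_det] at h3
    apply h3.ne_zero
    have h4 : N = (Matrix.of fun i j => A (s (e i)) j).map (Int.castRingHom ℚ) := by
      ext i j
      rfl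
    rw [h4, ← RingHom.mapMatrix_apply, ← RingHom.map_det, h1, map_zero]

end Pool.Agent.W563.HZ.REL
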